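import Pool.Agent.H378R2.PS.Defs

set_option autoImplicit false

/-! # Project PS, task P1 (helper132): `m - 1 = a q`, `m + 1 = b q'`, `m ± 2` without small primes -/

namespace Pool.Agent.H378R2.PS

namespace P1

/-- residues: an affine bijection of `range p` with `ZMod p` -/
lemma card_filter_affine (p : ℕ) [Fact p.Prime] (c L : ZMod p) (hL : L ≠ 0)
    (T : Finset (ZMod p)) :
    ((Finset.range p).filter (fun l : ℕ => c + L * ((l : ZMod p) - 1) ∈ T)).card = T.card := by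
  classical
  refine Finset.card_nbij' (fun l : ℕ => c + L * ((l : ZMod p) - 1))
    (fun x : ZMod p => ((x - c) / L + 1).val) ?_ ?_ ?_ ?_
  · intro l hl
    simp only [Finset.coe_filter, Set.mem_ofPred_eq, Finset.mem_range] at hl
    exact hl.2
  · intro x hx
    simp only [Finset.coe_filter, Set.mem_ofPred_eq, Finset.mem_range]
    refine ⟨ZMod.val_lt _, ?_⟩
    rw [ZMod.natCast_zmod_val]
    have : c + L * ((x - c) / L + 1 - 1) = x := by
      field_simp
      ring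
    rw [this]
    exact hx
  · intro l hl
    simp only [Finset.coe_filter, Set.mem_ofPred_eq, Finset.mem_range] at hl
    have : (c + L * ((l : ZMod p) - 1) - c) / L + 1 = (l : ZMod p) := by
      field_simp
      ring
    simp only [this]
    rw [ZMod.val_natCast, Nat.mod_eq_of_lt hl.1]
  · intro x hx
    simp only
    rw [ZMod.natCast_zmod_val]
    field_simp
    ring

lemma cast_ne {p : ℕ} (hp : 17 ≤ p) (k : ℕ) (hk : 0 < k) (hk' : k < 17) : (k : ZMod p) ≠ 0 := by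
  intro h
  rw [ZMod.natCast_eq_zero_iff] at h
  have := Nat.le_of_dvd hk h
  omega

lemma card4 {p : ℕ} (hp : 17 ≤ p) : ({1, -1, 2, -2} : Finset (ZMod p)).card = 4 := by
  have h1 : (1 : ZMod p) ≠ 0 := by have := cast_ne hp 1 (by norm_num) (by norm_num); simpa using this
  have h2 : (2 : ZMod p) ≠ 0 := by have := cast_ne hp 2 (by norm_num) (by norm_num); simpa using this
  have h3 : (3 : ZMod p) ≠ 0 := by have := cast_ne hp 3 (by norm_num) (by norm_num); simpa using this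
  have h4 : (4 : ZMod p) ≠ 0 := by have := cast_ne hp 4 (by norm_num) (by norm_num); simpa using this
  rw [Finset.card_insert_of_notMem, Finset.card_insert_of_notMem, Finset.card_insert_of_notMem,
    Finset.card_singleton]
  · simp only [Finset.mem_singleton]
    intro h
    apply h4
    linear_combination h
  · simp only [Finset.mem_insert, Finset.mem_singleton, not_or]
    refine ⟨fun h => h3 ?_, fun h => h1 ?_⟩
    · linear_combination -h
    · linear_combination h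
  · simp only [Finset.mem_insert, Finset.mem_singleton, not_or]
    refine ⟨fun h => h2 ?_, fun h => h1 ?_, fun h => h3 ?_⟩
    · linear_combination h
    · linear_combination -h
    · linear_combination h

lemma card2 {p : ℕ} (hp : 17 ≤ p) : ({1, -1} : Finset (ZMod p)).card = 2 := by
  have h2 : (2 : ZMod p) ≠ 0 := by have := cast_ne hp 2 (by norm_num) (by norm_num); simpa using this
  rw [Finset.card_insert_of_notMem, Finset.card_singleton]
  simp only [Finset.mem_singleton]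
  intro h
  apply h2
  linear_combination h

lemma prime_ge17 {p a b : ℕ} (hp : p.Prime) (h : ¬ p ∣ 30030 * a * b) :
    17 ≤ p ∧ ¬ p ∣ a ∧ ¬ p ∣ b := by
  refine ⟨?_, fun h1 => h ?_, fun h1 => h ?_⟩
  · by_contra hlt
    push Not at hlt
    apply h
    have : p ∣ 30030 := by
      interval_cases p <;> first | (norm_num; done) | (exfalso; revert hp; norm_num)
    exact Dvd.dvd.mul_right (Dvd.dvd.mul_right this a) b
  · exact Dvd.dvd.mul_right (Dvd.dvd.mul_left h1 30030) b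
  · exact Dvd.dvd.mul_left h1 _

/-- the sieve set -/
noncomputable def Eset (m0 L w p : ℕ) : Finset ℕ :=
  (Finset.range p).filter (fun l : ℕ => (m0 : ZMod p) + (L : ZMod p) * ((l : ZMod p) - 1) ∈
    (if p ≤ w then ({1, -1, 2, -2} : Finset (ZMod p)) else {1, -1}))


lemma Eset_prop {m0 L w p : ℕ} (hp : p.Prime) (hp17 : 17 ≤ p) (hL : ¬ p ∣ L) :
    Eset m0 L w p ⊆ Finset.range p ∧ (p ≤ w → (Eset m0 L w p).card = 2 + 2) ∧
      (w < p → (Eset m0 L w p).card = 2) := by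
  have : Fact p.Prime := ⟨hp⟩
  have hL' : (L : ZMod p) ≠ 0 := by
    intro h
    rw [ZMod.natCast_eq_zero_iff] at h
    exact hL h
  refine ⟨Finset.filter_subset _ _, fun hw => ?_, fun hw => ?_⟩
  · unfold Eset
    rw [if_pos hw]
    have := card_filter_affine p (m0 : ZMod p) (L : ZMod p) hL' {1, -1, 2, -2}
    rw [card4 hp17] at this
    exact this
  · unfold Eset
    rw [if_neg (by omega)]
    have := card_filter_affine p (m0 : ZMod p) (L : ZMod p) hL' {1, -1}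
    rw [card2 hp17] at this
    exact this

lemma mem_Eset {m0 L w p l m : ℕ} (hm : m = m0 + L * (l - 1)) (hl : 1 ≤ l)
    (h : l % p ∈ Eset m0 L w p) :
    ((m : ZMod p) = 1 ∨ (m : ZMod p) = -1) ∨
      (p ≤ w ∧ ((m : ZMod p) = 2 ∨ (m : ZMod p) = -2)) := by
  unfold Eset at h
  rw [Finset.mem_filter] at h
  have h2 := h.2
  rw [ZMod.natCast_mod] at h2
  have hcast : (m0 : ZMod p) + (L : ZMod p) * ((l : ZMod p) - 1) = (m : ZMod p) := by
    rw [hm]
    push_cast [Nat.cast_sub hl]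
    ring
  rw [hcast] at h2
  split_ifs at h2 with hw
  · simp only [Finset.mem_insert, Finset.mem_singleton] at h2
    tauto
  · simp only [Finset.mem_insert, Finset.mem_singleton] at h2
    tauto

lemma dvd_of_cast_sub {p m k : ℕ} (hk : k ≤ m) (h : (m : ZMod p) = (k : ZMod p)) : p ∣ (m - k) := by
  rw [← ZMod.natCast_eq_zero_iff, Nat.cast_sub hk, h, sub_self]

lemma dvd_of_cast_add {p m k : ℕ} (h : (m : ZMod p) = -(k : ZMod p)) : p ∣ (m + k) := by
  rw [← ZMod.natCast_eq_zero_iff, Nat.cast_add, h]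
  ring

lemma main_count (C0 : ℝ)
    (h0 : ∀ (Y M w : ℕ) (E : ℕ → Finset ℕ) (S : Finset ℕ), M ≠ 0 →
    (∀ p : ℕ, p.Prime → ¬ p ∣ M → 17 ≤ p ∧ E p ⊆ Finset.range p ∧
      (p ≤ w → (E p).card = 2 + 2) ∧ (w < p → (E p).card = 2)) →
    2 ≤ w → (w : ℝ) ≤ (Y : ℝ) ^ (1 / 64 : ℝ) → S ⊆ Finset.Icc 1 Y →
    (∀ l ∈ S, ∀ p : ℕ, p.Prime → ¬ p ∣ M → (p : ℝ) ≤ (Y : ℝ) ^ (1 / 8 : ℝ) → l % p ∉ E p) →
    (S.card : ℝ) ≤ C0 * ((M : ℝ) / (M.totient : ℝ)) ^ 4 * Y / ((Real.log Y) ^ 2 * (Real.log w) ^ 2))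
    (a b R w : ℕ) (ha : 0 < a) (hb : 0 < b) (hw : 2 ≤ w) (m0 Y : ℕ)
    (hY : Y = R / Nat.lcm a b + 1) (hwY : (w : ℝ) ≤ (Y : ℝ) ^ (1 / 64 : ℝ)) (S : Finset ℕ)
    (hS : ∀ m ∈ S, m0 ≤ m ∧ Nat.lcm a b ∣ m - m0 ∧ 3 ≤ m ∧ m ≤ R ∧
      (∃ q : ℕ, q.Prime ∧ m - 1 = a * q ∧ (Y : ℝ) ^ (1 / 8 : ℝ) < q) ∧
      (∃ q : ℕ, q.Prime ∧ m + 1 = b * q ∧ (Y : ℝ) ^ (1 / 8 : ℝ) < q) ∧
      ∀ p : ℕ, p.Prime → 5 ≤ p → p ≤ w → ¬ (p ∣ (m - 2)) ∧ ¬ (p ∣ (m + 2))) :
    (S.card : ℝ) ≤ C0 * (((30030 * a * b : ℕ) : ℝ) / ((30030 * a * b : ℕ).totient : ℝ)) ^ 4 * Y /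
      ((Real.log Y) ^ 2 * (Real.log w) ^ 2) := by
  classical
  set L := Nat.lcm a b with hLdef
  have hLpos : 0 < L := Nat.lcm_pos ha hb
  have hLdvd : L ∣ a * b := Nat.lcm_dvd_mul a b
  have hinj : Set.InjOn (fun m => (m - m0) / L + 1) (S : Set ℕ) := by
    intro x hx y hy hxy
    obtain ⟨hx1, ⟨kx, hkx⟩, -⟩ := hS x hx
    obtain ⟨hy1, ⟨ky, hky⟩, -⟩ := hS y hy
    simp only [hkx, hky, Nat.mul_div_cancel_left _ hLpos, Nat.add_right_cancel_iff] at hxy
    subst hxy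
    omega
  rw [← Finset.card_image_of_injOn hinj]
  apply h0 Y (30030 * a * b) w (Eset m0 L w) _ (by positivity) ?_ hw hwY ?_ ?_
  · intro p hp hpM
    obtain ⟨h17, hpa, hpb⟩ := prime_ge17 hp hpM
    have hpL : ¬ p ∣ L := by
      intro h
      have := (Nat.Prime.dvd_mul hp).1 (h.trans hLdvd)
      tauto
    exact ⟨h17, Eset_prop hp h17 hpL⟩
  · intro l hl
    rw [Finset.mem_image] at hl
    obtain ⟨m, hm, rfl⟩ := hl
    obtain ⟨h1, -, h3, h4, -⟩ := hS m hm
    rw [Finset.mem_Icc, hY]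
    refine ⟨Nat.le_add_left 1 _, ?_⟩
    have : (m - m0) / L ≤ R / L := Nat.div_le_div_right (by omega)
    exact Nat.add_le_add_right this 1
  · intro l hl p hp hpM hpY hmem
    rw [Finset.mem_image] at hl
    obtain ⟨m, hm, hml⟩ := hl
    obtain ⟨h1, ⟨k, hk⟩, h3, h4, ⟨q, hq, hmq, hqY⟩, ⟨q', hq', hmq', hqY'⟩, h7⟩ := hS m hm
    obtain ⟨h17, hpa, hpb⟩ := prime_ge17 hp hpM
    have hml' : l = k + 1 := by
      simp only [hk, Nat.mul_div_cancel_left _ hLpos] at hml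
      exact hml.symm
    have hmeq : m = m0 + L * (l - 1) := by
      rw [hml', Nat.add_sub_cancel]
      omega
    rcases mem_Eset hmeq (by omega) hmem with h | ⟨hpw, h⟩
    · rcases h with h | h
      · have hd := dvd_of_cast_sub (m := m) (k := 1) (by omega) (by simpa using h)
        rw [hmq] at hd
        rcases (Nat.Prime.dvd_mul hp).1 hd with hd | hd
        · exact hpa hd
        · rw [Nat.prime_dvd_prime_iff_eq hp hq] at hd
          subst hd
          linarith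
      · have hd := dvd_of_cast_add (k := 1) (by simpa using h)
        rw [hmq'] at hd
        rcases (Nat.Prime.dvd_mul hp).1 hd with hd | hd
        · exact hpb hd
        · rw [Nat.prime_dvd_prime_iff_eq hp hq'] at hd
          subst hd
          linarith
    · obtain ⟨h8, h9⟩ := h7 p hp (by omega) hpw
      rcases h with h | h
      · exact h8 (dvd_of_cast_sub (m := m) (k := 2) (by omega) (by simpa using h))
      · exact h9 (dvd_of_cast_add (k := 2) (by simpa using h))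

lemma ratio_bound {a b : ℕ} (ha : 0 < a) (hb : 0 < b) :
    ((30030 * a * b : ℕ) : ℝ) / ((30030 * a * b : ℕ).totient : ℝ) ≤
      6 * ((a : ℝ) / (Nat.totient a : ℝ)) * ((b : ℝ) / (Nat.totient b : ℝ)) := by
  have hta : 0 < Nat.totient a := Nat.totient_pos.2 ha
  have htb : 0 < Nat.totient b := Nat.totient_pos.2 hb
  have h1 : Nat.totient 30030 * Nat.totient a * Nat.totient b ≤ Nat.totient (30030 * a * b) :=
    (Nat.mul_le_mul_right _ (Nat.totient_super_multiplicative 30030 a)).trans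
      (Nat.totient_super_multiplicative (30030 * a) b)
  have h2 : Nat.totient 30030 = 5760 := by decide +kernel
  rw [h2] at h1
  have h1' : (5760 : ℝ) * Nat.totient a * Nat.totient b ≤ (Nat.totient (30030 * a * b) : ℝ) := by
    exact_mod_cast h1
  have hta' : (0 : ℝ) < Nat.totient a := by exact_mod_cast hta
  have htb' : (0 : ℝ) < Nat.totient b := by exact_mod_cast htb
  have ha' : (0 : ℝ) < a := by exact_mod_cast ha
  have hb' : (0 : ℝ) < b := by exact_mod_cast hb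
  have h3 : (6 : ℝ) * (a / Nat.totient a) * (b / Nat.totient b) =
      (6 * a * b) / (Nat.totient a * Nat.totient b) := by
    field_simp
  rw [h3]
  push_cast
  generalize Nat.totient (30030 * a * b) = T at h1'
  have hT : (0 : ℝ) < T := lt_of_lt_of_le (by positivity) h1'
  rw [div_le_div_iff₀ hT (by positivity)]
  have h4 : (30030 : ℝ) * a * b * (Nat.totient a * Nat.totient b) ≤
      6 * a * b * (5760 * Nat.totient a * Nat.totient b) := by
    have h5 : 0 ≤ (a : ℝ) * b * (Nat.totient a * Nat.totient b) := by positivity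
    have e1 : (30030 : ℝ) * a * b * (Nat.totient a * Nat.totient b) =
        30030 * ((a : ℝ) * b * (Nat.totient a * Nat.totient b)) := by ring
    have e2 : (6 : ℝ) * a * b * (5760 * Nat.totient a * Nat.totient b) =
        34560 * ((a : ℝ) * b * (Nat.totient a * Nat.totient b)) := by ring
    rw [e1, e2]
    exact mul_le_mul_of_nonneg_right (by norm_num) h5
  refine h4.trans ?_
  exact mul_le_mul_of_nonneg_left h1' (by positivity)


lemma log_pow_le {R : ℝ} (hR : 1 ≤ R) : Real.log R ≤ 16 * R ^ (1 / 16 : ℝ) := by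
  have := Real.log_le_rpow_div (x := R) (by linarith) (ε := 1 / 16) (by norm_num)
  linarith

end P1

open P1 in
/-- P1: `m - 1 = a q`, `m + 1 = b q'` with primes, `m - 2`, `m + 2` without prime factors in `[5, w]` -/
theorem sieve_four (h00 : ∀ j : ℕ, (j = 1 ∨ j = 2) → ∃ C : ℝ, 0 < C ∧
    ∀ (Y M w : ℕ) (E : ℕ → Finset ℕ) (S : Finset ℕ), M ≠ 0 →
    (∀ p : ℕ, p.Prime → ¬ p ∣ M → 17 ≤ p ∧ E p ⊆ Finset.range p ∧
      (p ≤ w → (E p).card = 2 + j) ∧ (w < p → (E p).card = 2)) →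
    2 ≤ w → (w : ℝ) ≤ (Y : ℝ) ^ (1 / 64 : ℝ) → S ⊆ Finset.Icc 1 Y →
    (∀ l ∈ S, ∀ p : ℕ, p.Prime → ¬ p ∣ M → (p : ℝ) ≤ (Y : ℝ) ^ (1 / 8 : ℝ) → l % p ∉ E p) →
    (S.card : ℝ) ≤ C * ((M : ℝ) / (M.totient : ℝ)) ^ 4 * Y / ((Real.log Y) ^ 2 * (Real.log w) ^ j)) :
    ∃ C : ℝ, 0 < C ∧ ∀ (a b R w : ℕ), 0 < a → 0 < b → 2 ≤ w →
    (w : ℝ) ≤ (R : ℝ) ^ (1 / 128 : ℝ) → ((a : ℝ) * b) ≤ (R : ℝ) ^ (1 / 4 : ℝ) →
    ∀ S : Finset ℕ, (∀ m ∈ S, 3 ≤ m ∧ m ≤ R ∧
      (∃ q : ℕ, q.Prime ∧ m - 1 = a * q) ∧ (∃ q : ℕ, q.Prime ∧ m + 1 = b * q) ∧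
      ∀ p : ℕ, p.Prime → 5 ≤ p → p ≤ w → ¬ (p ∣ (m - 2)) ∧ ¬ (p ∣ (m + 2))) →
    (S.card : ℝ) ≤ C * ((a : ℝ) / (Nat.totient a : ℝ)) ^ 4 * ((b : ℝ) / (Nat.totient b : ℝ)) ^ 4 *
      R / (a * b * ((Real.log R) ^ 2 * (Real.log w) ^ 2)) := by
  classical
  obtain ⟨C0, hC0, h0⟩ := h00 2 (Or.inr rfl)
  refine ⟨C0 * 6 ^ 4 * 3 * 2 + 16 * 65536, by positivity, ?_⟩
  intro a b R w ha hb hw hwR hab S hS
  have ha' : (0 : ℝ) < a := by exact_mod_cast ha
  have hb' : (0 : ℝ) < b := by exact_mod_cast hb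
  have ha1 : (1 : ℝ) ≤ a := by exact_mod_cast ha
  have hb1 : (1 : ℝ) ≤ b := by exact_mod_cast hb
  have hw' : (2 : ℝ) ≤ w := by exact_mod_cast hw
  -- `R` is large
  have hR0 : (0 : ℝ) ≤ R := Nat.cast_nonneg R
  have hR1 : (1 : ℝ) < R := by
    by_contra hcon
    push Not at hcon
    have := Real.rpow_le_one hR0 hcon (by norm_num : (0 : ℝ) ≤ 1 / 128)
    linarith
  have hRpos : (0 : ℝ) < R := by linarith
  have hlogR : 0 < Real.log R := Real.log_pos hR1
  have hlogw : 0 < Real.log w := Real.log_pos (by linarith)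
  have hlogwR : Real.log w ≤ Real.log R := by
    apply Real.log_le_log (by linarith)
    refine hwR.trans ?_
    calc (R : ℝ) ^ (1 / 128 : ℝ) ≤ (R : ℝ) ^ (1 : ℝ) :=
          Real.rpow_le_rpow_of_exponent_le hR1.le (by norm_num)
      _ = R := Real.rpow_one _
  have hta : 0 < Nat.totient a := Nat.totient_pos.2 ha
  have htb : 0 < Nat.totient b := Nat.totient_pos.2 hb
  have hta' : (0 : ℝ) < Nat.totient a := by exact_mod_cast hta
  have htb' : (0 : ℝ) < Nat.totient b := by exact_mod_cast htb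
  have hA1 : (1 : ℝ) ≤ (a : ℝ) / Nat.totient a := by
    rw [le_div_iff₀ hta', one_mul]
    exact_mod_cast Nat.totient_le a
  have hB1 : (1 : ℝ) ≤ (b : ℝ) / Nat.totient b := by
    rw [le_div_iff₀ htb', one_mul]
    exact_mod_cast Nat.totient_le b
  set A : ℝ := (a : ℝ) / Nat.totient a with hA
  set B : ℝ := (b : ℝ) / Nat.totient b with hB
  have hA0 : 0 < A := by linarith
  have hB0 : 0 < B := by linarith
  rcases S.eq_empty_or_nonempty with rfl | hne
  · simp only [Finset.card_empty, Nat.cast_zero]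
    positivity
  obtain ⟨m0, hm0S, hm0⟩ := S.exists_min_image id hne
  simp only [id] at hm0
  set L := Nat.lcm a b with hLdef
  have hLpos : 0 < L := Nat.lcm_pos ha hb
  have hL' : (0 : ℝ) < L := by exact_mod_cast hLpos
  set Y : ℕ := R / L + 1 with hY
  -- gcd is at most 2
  have hgcd : Nat.gcd a b ∣ 2 := by
    obtain ⟨h3, -, ⟨q, -, hq⟩, ⟨q', -, hq'⟩, -⟩ := hS m0 hm0S
    have h1 : Nat.gcd a b ∣ m0 - 1 := hq ▸ Dvd.dvd.mul_right (Nat.gcd_dvd_left a b) q
    have h2 : Nat.gcd a b ∣ m0 + 1 := hq' ▸ Dvd.dvd.mul_right (Nat.gcd_dvd_right a b) q'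
    have h4 := Nat.dvd_sub h2 h1
    have h5 : m0 + 1 - (m0 - 1) = 2 := by omega
    rwa [h5] at h4
  have hLab : a * b ≤ 2 * L := by
    have h1 := Nat.gcd_mul_lcm a b
    rw [← h1]
    exact Nat.mul_le_mul_right _ (Nat.le_of_dvd (by norm_num) hgcd)
  have hLab' : (a : ℝ) * b ≤ 2 * L := by exact_mod_cast hLab
  have hLle : L ≤ a * b := Nat.le_of_dvd (by positivity) (Nat.lcm_dvd_mul a b)
  have hLle' : (L : ℝ) ≤ a * b := by exact_mod_cast hLle
  -- bounds for `Y`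
  have hYlow : (R : ℝ) / L ≤ Y := by
    have h1 : (R : ℝ) < L * Y := by
      have := Nat.lt_mul_div_succ R hLpos
      exact_mod_cast this
    rw [div_le_iff₀ hL']
    nlinarith
  have hYlow2 : (R : ℝ) ^ (3 / 4 : ℝ) ≤ Y := by
    refine le_trans ?_ hYlow
    rw [le_div_iff₀ hL']
    calc (R : ℝ) ^ (3 / 4 : ℝ) * L ≤ (R : ℝ) ^ (3 / 4 : ℝ) * (R : ℝ) ^ (1 / 4 : ℝ) := by
          apply mul_le_mul_of_nonneg_left (hLle'.trans hab) (by positivity)
      _ = R := by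
          rw [← Real.rpow_add hRpos]
          norm_num
  have hRab : (a : ℝ) * b ≤ R := by
    refine hab.trans ?_
    calc (R : ℝ) ^ (1 / 4 : ℝ) ≤ (R : ℝ) ^ (1 : ℝ) :=
          Real.rpow_le_rpow_of_exponent_le hR1.le (by norm_num)
      _ = R := Real.rpow_one _
  have hYup : (Y : ℝ) ≤ 3 * R / (a * b) := by
    have h1 : ((R / L : ℕ) : ℝ) ≤ (R : ℝ) / L := Nat.cast_div_le
    have h2 : (Y : ℝ) = ((R / L : ℕ) : ℝ) + 1 := by rw [hY]; push_cast; ring
    have h3 : (R : ℝ) / L ≤ 2 * R / (a * b) := by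
      rw [div_le_div_iff₀ hL' (by positivity)]
      nlinarith
    have h4 : (1 : ℝ) ≤ R / (a * b) := by
      rw [le_div_iff₀ (by positivity), one_mul]
      exact hRab
    have h5 : (3 : ℝ) * R / (a * b) = 2 * R / (a * b) + R / (a * b) := by ring
    rw [h2, h5]
    linarith
  have hR34 : (1 : ℝ) < (R : ℝ) ^ (3 / 4 : ℝ) := Real.one_lt_rpow hR1 (by norm_num)
  have hY1 : (1 : ℝ) < Y := lt_of_lt_of_le hR34 hYlow2
  have hY0 : (0 : ℝ) < Y := by linarith
  have hlogY : 3 / 4 * Real.log R ≤ Real.log Y := by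
    rw [← Real.log_rpow hRpos]
    exact Real.log_le_log (by positivity) hYlow2
  have hwY : (w : ℝ) ≤ (Y : ℝ) ^ (1 / 64 : ℝ) := by
    refine hwR.trans ?_
    calc (R : ℝ) ^ (1 / 128 : ℝ) ≤ (R : ℝ) ^ (3 / 4 * (1 / 64) : ℝ) :=
          Real.rpow_le_rpow_of_exponent_le hR1.le (by norm_num)
      _ = ((R : ℝ) ^ (3 / 4 : ℝ)) ^ (1 / 64 : ℝ) := Real.rpow_mul hR0 _ _
      _ ≤ (Y : ℝ) ^ (1 / 64 : ℝ) := Real.rpow_le_rpow (by positivity) hYlow2 (by norm_num)
  -- splitting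
  set S1 := S.filter (fun m => (Y : ℝ) ^ (1 / 8 : ℝ) < (((m - 1) / a : ℕ) : ℝ) ∧
    (Y : ℝ) ^ (1 / 8 : ℝ) < (((m + 1) / b : ℕ) : ℝ)) with hS1
  set K : ℕ := ⌊(Y : ℝ) ^ (1 / 8 : ℝ)⌋₊ with hK
  have hsplit : S ⊆ S1 ∪ ((Finset.range (K + 1)).image (fun q => a * q + 1) ∪
      (Finset.range (K + 1)).image (fun q => b * q - 1)) := by
    intro m hm
    by_cases hmS1 : m ∈ S1
    · exact Finset.mem_union_left _ hmS1
    · apply Finset.mem_union_right
      rw [hS1, Finset.mem_filter, not_and, not_and_or] at hmS1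
      obtain ⟨h3, -, ⟨q, -, hq⟩, ⟨q', -, hq'⟩, -⟩ := hS m hm
      rcases hmS1 hm with h | h
      · apply Finset.mem_union_left
        rw [Finset.mem_image]
        refine ⟨q, ?_, by omega⟩
        rw [hq, Nat.mul_div_cancel_left _ ha] at h
        push Not at h
        rw [Finset.mem_range, Nat.lt_succ_iff, hK]
        exact Nat.le_floor h
      · apply Finset.mem_union_right
        rw [Finset.mem_image]
        refine ⟨q', ?_, by omega⟩
        rw [hq', Nat.mul_div_cancel_left _ hb] at h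
        push Not at h
        rw [Finset.mem_range, Nat.lt_succ_iff, hK]
        exact Nat.le_floor h
  have hcard : (S.card : ℝ) ≤ S1.card + (2 * K + 2) := by
    have h1 := Finset.card_le_card hsplit
    have h2 := Finset.card_union_le S1 ((Finset.range (K + 1)).image (fun q => a * q + 1) ∪
      (Finset.range (K + 1)).image (fun q => b * q - 1))
    have h3 := Finset.card_union_le ((Finset.range (K + 1)).image (fun q => a * q + 1))
      ((Finset.range (K + 1)).image (fun q => b * q - 1))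
    have h4 : ((Finset.range (K + 1)).image (fun q => a * q + 1)).card ≤ K + 1 :=
      Finset.card_image_le.trans (by simp)
    have h5 : ((Finset.range (K + 1)).image (fun q => b * q - 1)).card ≤ K + 1 :=
      Finset.card_image_le.trans (by simp)
    have h6 : S.card ≤ S1.card + (2 * K + 2) := by omega
    exact_mod_cast h6
  -- the main term
  have hmain : (S1.card : ℝ) ≤ C0 * (((30030 * a * b : ℕ) : ℝ) /
      ((30030 * a * b : ℕ).totient : ℝ)) ^ 4 * Y / ((Real.log Y) ^ 2 * (Real.log w) ^ 2) := by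
    apply main_count C0 h0 a b R w ha hb hw m0 Y hY hwY S1
    intro m hm
    rw [hS1, Finset.mem_filter] at hm
    obtain ⟨hmS, hq1, hq2⟩ := hm
    obtain ⟨h3, h4, ⟨q, hq, hqe⟩, ⟨q', hq', hqe'⟩, h5⟩ := hS m hmS
    obtain ⟨k3, -, ⟨r, hr, hre⟩, ⟨r', hr', hre'⟩, -⟩ := hS m0 hm0S
    have hle := hm0 m hmS
    refine ⟨hle, ?_, h3, h4, ⟨q, hq, hqe, ?_⟩, ⟨q', hq', hqe', ?_⟩, h5⟩
    · apply Nat.lcm_dvd
      · have e1 : m - m0 = (m - 1) - (m0 - 1) := by omega
        rw [e1, hqe, hre]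
        exact Nat.dvd_sub (Dvd.intro _ rfl) (Dvd.intro _ rfl)
      · have e1 : m - m0 = (m + 1) - (m0 + 1) := by omega
        rw [e1, hqe', hre']
        exact Nat.dvd_sub (Dvd.intro _ rfl) (Dvd.intro _ rfl)
    · rwa [hqe, Nat.mul_div_cancel_left _ ha] at hq1
    · rwa [hqe', Nat.mul_div_cancel_left _ hb] at hq2
  set D : ℝ := A ^ 4 * B ^ 4 * (R / (a * b * ((Real.log R) ^ 2 * (Real.log w) ^ 2))) with hD
  have hgoal : (C0 * 6 ^ 4 * 3 * 2 + 16 * 65536) * A ^ 4 * B ^ 4 *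
      R / (a * b * ((Real.log R) ^ 2 * (Real.log w) ^ 2)) =
      (C0 * 6 ^ 4 * 3 * 2) * D + (16 * 65536) * D := by
    rw [hD]; ring
  rw [hgoal]
  have hM1 : C0 * (((30030 * a * b : ℕ) : ℝ) /
      ((30030 * a * b : ℕ).totient : ℝ)) ^ 4 * Y / ((Real.log Y) ^ 2 * (Real.log w) ^ 2) ≤
      (C0 * 6 ^ 4 * 3 * 2) * D := by
    have h1 : (((30030 * a * b : ℕ) : ℝ) / ((30030 * a * b : ℕ).totient : ℝ)) ^ 4 ≤
        (6 * A * B) ^ 4 := by
      apply pow_le_pow_left₀ (by positivity)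
      exact ratio_bound ha hb
    have h2 : (1 / 2) * (Real.log R) ^ 2 ≤ (Real.log Y) ^ 2 := by
      nlinarith [hlogY, hlogR]
    calc C0 * (((30030 * a * b : ℕ) : ℝ) /
      ((30030 * a * b : ℕ).totient : ℝ)) ^ 4 * Y / ((Real.log Y) ^ 2 * (Real.log w) ^ 2)
        ≤ C0 * (6 * A * B) ^ 4 * (3 * R / (a * b)) / ((1 / 2) * (Real.log R) ^ 2 * (Real.log w) ^ 2) := by
          apply div_le_div₀ (by positivity) _ (by positivity) _
          · apply mul_le_mul _ hYup hY0.le (by positivity)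
            exact mul_le_mul_of_nonneg_left h1 hC0.le
          · exact mul_le_mul_of_nonneg_right h2 (by positivity)
      _ = (C0 * 6 ^ 4 * 3 * 2) * D := by
          rw [hD]
          field_simp
  have hM2 : (2 * (K : ℝ) + 2) ≤ (16 * 65536) * D := by
    have h1 : (K : ℝ) ≤ (Y : ℝ) ^ (1 / 8 : ℝ) := Nat.floor_le (by positivity)
    have h2 : (1 : ℝ) ≤ (Y : ℝ) ^ (1 / 8 : ℝ) := Real.one_le_rpow hY1.le (by norm_num)
    have h3 : (Y : ℝ) ^ (1 / 8 : ℝ) ≤ 3 * (R : ℝ) ^ (1 / 8 : ℝ) := by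
      have h4 : (Y : ℝ) ≤ 3 * R := by
        refine hYup.trans ?_
        rw [div_le_iff₀ (by positivity)]
        have : (1 : ℝ) ≤ a * b := by nlinarith
        nlinarith
      calc (Y : ℝ) ^ (1 / 8 : ℝ) ≤ (3 * R : ℝ) ^ (1 / 8 : ℝ) :=
            Real.rpow_le_rpow hY0.le h4 (by norm_num)
        _ = 3 ^ (1 / 8 : ℝ) * (R : ℝ) ^ (1 / 8 : ℝ) := Real.mul_rpow (by norm_num) hR0
        _ ≤ 3 * (R : ℝ) ^ (1 / 8 : ℝ) := by
            apply mul_le_mul_of_nonneg_right _ (by positivity)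
            calc (3 : ℝ) ^ (1 / 8 : ℝ) ≤ 3 ^ (1 : ℝ) :=
                  Real.rpow_le_rpow_of_exponent_le (by norm_num) (by norm_num)
              _ = 3 := Real.rpow_one _
    have h5 : (2 * (K : ℝ) + 2) ≤ 16 * (R : ℝ) ^ (1 / 2 : ℝ) := by
      have h6 : (R : ℝ) ^ (1 / 8 : ℝ) ≤ (R : ℝ) ^ (1 / 2 : ℝ) :=
        Real.rpow_le_rpow_of_exponent_le hR1.le (by norm_num)
      linarith
    refine h5.trans ?_
    have h7 : (Real.log R) ^ 4 ≤ 65536 * (R : ℝ) ^ (1 / 4 : ℝ) := by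
      calc (Real.log R) ^ 4 ≤ (16 * (R : ℝ) ^ (1 / 16 : ℝ)) ^ 4 :=
            pow_le_pow_left₀ hlogR.le (log_pow_le hR1.le) 4
        _ = 65536 * ((R : ℝ) ^ (1 / 16 : ℝ)) ^ (4 : ℕ) := by ring
        _ = 65536 * (R : ℝ) ^ (1 / 4 : ℝ) := by
            rw [← Real.rpow_natCast, ← Real.rpow_mul hR0]
            norm_num
    have h8 : (Real.log R) ^ 2 * (Real.log w) ^ 2 ≤ 65536 * (R : ℝ) ^ (1 / 4 : ℝ) := by
      refine le_trans ?_ h7
      have : (Real.log w) ^ 2 ≤ (Real.log R) ^ 2 := pow_le_pow_left₀ hlogw.le hlogwR 2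
      calc (Real.log R) ^ 2 * (Real.log w) ^ 2 ≤ (Real.log R) ^ 2 * (Real.log R) ^ 2 :=
            mul_le_mul_of_nonneg_left this (by positivity)
        _ = (Real.log R) ^ 4 := by ring
    have h9 : (R : ℝ) ^ (1 / 2 : ℝ) / 65536 ≤
        R / (a * b * ((Real.log R) ^ 2 * (Real.log w) ^ 2)) := by
      rw [div_le_div_iff₀ (by norm_num) (by positivity)]
      calc (R : ℝ) ^ (1 / 2 : ℝ) * (a * b * ((Real.log R) ^ 2 * (Real.log w) ^ 2))
          ≤ (R : ℝ) ^ (1 / 2 : ℝ) * ((R : ℝ) ^ (1 / 4 : ℝ) * (65536 * (R : ℝ) ^ (1 / 4 : ℝ))) := by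
            apply mul_le_mul_of_nonneg_left _ (by positivity)
            exact mul_le_mul hab h8 (by positivity) (by positivity)
        _ = ((R : ℝ) ^ (1 / 2 : ℝ) * (R : ℝ) ^ (1 / 4 : ℝ) * (R : ℝ) ^ (1 / 4 : ℝ)) * 65536 := by ring
        _ = R * 65536 := by
            rw [← Real.rpow_add hRpos, ← Real.rpow_add hRpos]
            norm_num
    have h10 : R / (a * b * ((Real.log R) ^ 2 * (Real.log w) ^ 2)) ≤ D := by
      rw [hD]
      have hAB : 1 ≤ A ^ 4 * B ^ 4 := by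
        have h11 : 1 ≤ A ^ 4 := one_le_pow₀ hA1
        have h12 : 1 ≤ B ^ 4 := one_le_pow₀ hB1
        nlinarith
      have : 0 ≤ R / (a * b * ((Real.log R) ^ 2 * (Real.log w) ^ 2)) := by positivity
      nlinarith
    have h11 : (R : ℝ) ^ (1 / 2 : ℝ) / 65536 ≤ D := h9.trans h10
    rw [div_le_iff₀ (by norm_num)] at h11
    linarith
  linarith

end Pool.Agent.H378R2.PS
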